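import Pool.Agent.NTW.StmtsA

/-!
# NTW squad, row FCS: faces and their spans
-/

set_option autoImplicit false

open Matrix Filter Topology

namespace Pool.Agent.NTW.H27

open Pool.Agent.PFS Pool.Agent.PFJ Pool.Agent.NTW

variable {n : ℕ} {C : Set (V n)}

theorem self_mem_face (h : PCone C) (x : V n) : x ∈ Face C x := by
  refine ⟨1, one_pos, ?_, ?_⟩ <;> rw [one_smul, sub_self] <;> exact h.zero_cl

/-- the submodule of the vectors dominated by `x` -/
def domS (h : PCone C) {x : V n} (hx : x ∈ closure C) : Submodule ℝ (V n) where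
  carrier := {z | ∃ M : ℝ, 0 < M ∧ M • x - z ∈ closure C ∧ M • x + z ∈ closure C}
  zero_mem' := ⟨1, one_pos, by rw [one_smul, sub_zero]; exact hx,
    by rw [one_smul, add_zero]; exact hx⟩
  add_mem' := by
    rintro a b ⟨M, hM, h1, h2⟩ ⟨N, hN, h3, h4⟩
    refine ⟨M + N, add_pos hM hN, ?_, ?_⟩
    · have := h.cl_add h1 h3
      have e : M • x - a + (N • x - b) = (M + N) • x - (a + b) := by rw [add_smul]; abel
      rwa [e] at this
    · have := h.cl_add h2 h4
      have e : M • x + a + (N • x + b) = (M + N) • x + (a + b) := by rw [add_smul]; abel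
      rwa [e] at this
  smul_mem' := by
    rintro c a ⟨M, hM, h1, h2⟩
    refine ⟨|c| * M + 1, by positivity, ?_, ?_⟩
    · rcases le_or_gt 0 c with hc | hc
      · have := h.cl_add (h.cl_smul h1 hc) hx
        have e : c • (M • x - a) + x = (|c| * M + 1) • x - c • a := by
          rw [abs_of_nonneg hc, smul_sub, add_smul, mul_smul, one_smul]; abel
        rwa [e] at this
      · have := h.cl_add (h.cl_smul h2 (t := -c) (by linarith)) hx
        have e : (-c) • (M • x + a) + x = (|c| * M + 1) • x - c • a := by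
          rw [abs_of_neg hc, smul_add, add_smul, mul_smul, one_smul, neg_smul c a]; abel
        rwa [e] at this
    · rcases le_or_gt 0 c with hc | hc
      · have := h.cl_add (h.cl_smul h2 hc) hx
        have e : c • (M • x + a) + x = (|c| * M + 1) • x + c • a := by
          rw [abs_of_nonneg hc, smul_add, add_smul, mul_smul, one_smul]; abel
        rwa [e] at this
      · have := h.cl_add (h.cl_smul h1 (t := -c) (by linarith)) hx
        have e : (-c) • (M • x - a) + x = (|c| * M + 1) • x + c • a := by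
          rw [abs_of_neg hc, smul_sub, add_smul, mul_smul, one_smul, neg_smul c a]; abel
        rwa [e] at this

theorem cl_of_face (h : PCone C) {x y : V n} (hx : x ∈ closure C) (hy : y ∈ Face C x) :
    y ∈ closure C := by
  obtain ⟨ε, hε, -, h2⟩ := hy
  have := h.cl_add h2 (h.cl_smul hx hε.le)
  rwa [sub_add_cancel] at this

theorem span_le_dom (h : PCone C) {x : V n} (hx : x ∈ closure C) :
    Submodule.span ℝ (Face C x) ≤ domS h hx := by
  rw [Submodule.span_le]
  intro y hy
  have hyc := cl_of_face h hx hy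
  obtain ⟨ε, hε, h1, -⟩ := hy
  refine ⟨ε⁻¹, inv_pos.2 hε, ?_, h.cl_add (h.cl_smul hx (inv_pos.2 hε).le) hyc⟩
  have := h.cl_smul h1 (inv_pos.2 hε).le
  rwa [smul_sub, smul_smul, inv_mul_cancel₀ hε.ne', one_smul] at this

/-- item 2 -/
theorem mem_span (h : PCone C) {x y : V n} (hx : x ∈ closure C) (hy : y ∈ closure C) (M : ℝ)
    (hM : M • x - y ∈ closure C) : y ∈ Submodule.span ℝ (Face C x) := by
  have hN : (0 : ℝ) < |M| + 1 := by positivity
  have h1 : (|M| + 1) • x - y ∈ closure C := by
    have := h.cl_add hM (h.cl_smul hx (t := |M| + 1 - M) (by linarith [le_abs_self M]))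
    have e : M • x - y + (|M| + 1 - M) • x = (|M| + 1) • x - y := by rw [sub_smul]; abel
    rwa [e] at this
  have h2 : x + y ∈ Face C x := by
    have hp : (0 : ℝ) < 1 + (|M| + 1) := by linarith
    refine ⟨(1 + (|M| + 1))⁻¹, inv_pos.2 hp, ?_, ?_⟩
    · have := h.cl_smul h1 (inv_pos.2 hp).le
      have e : (1 + (|M| + 1))⁻¹ • ((|M| + 1) • x - y) = x - (1 + (|M| + 1))⁻¹ • (x + y) := by
        have e1 : (|M| + 1) • x - y = (1 + (|M| + 1)) • x - (x + y) := by
          rw [add_smul (1 : ℝ), one_smul]; abel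
        rw [e1, smul_sub, smul_smul, inv_mul_cancel₀ hp.ne', one_smul]
      rwa [e] at this
    · have hle : (1 + (|M| + 1))⁻¹ ≤ 1 := inv_le_one_of_one_le₀ (by linarith)
      have := h.cl_add (h.cl_smul hx (t := 1 - (1 + (|M| + 1))⁻¹) (by linarith)) hy
      have e : (1 - (1 + (|M| + 1))⁻¹) • x + y = x + y - (1 + (|M| + 1))⁻¹ • x := by
        rw [sub_smul, one_smul]; abel
      rwa [e] at this
  have h3 := Submodule.sub_mem _ (Submodule.subset_span h2)
    (Submodule.subset_span (self_mem_face h x) : x ∈ Submodule.span ℝ (Face C x))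
  rwa [add_sub_cancel_left] at h3

/-- item 1 -/
theorem unt_self (h : PCone C) {x : V n} (hx : x ∈ closure C) :
    Unt C (Submodule.span ℝ (Face C x)) x := by
  refine ⟨Submodule.subset_span (self_mem_face h x), hx, fun z hz => ?_⟩
  obtain ⟨M, hM, h1, -⟩ := span_le_dom h hx hz
  exact ⟨M, hM, h1⟩

/-- item 3 -/
theorem face_iff (h : PCone C) {x : V n} (hx : x ∈ closure C) (y : V n) :
    y ∈ Face C x ↔ Unt C (Submodule.span ℝ (Face C x)) y := by
  constructor
  · intro hy
    have hyc := cl_of_face h hx hy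
    refine ⟨Submodule.subset_span hy, hyc, fun z hz => ?_⟩
    obtain ⟨M, hM, h1, -⟩ := span_le_dom h hx hz
    obtain ⟨ε, hε, -, h2⟩ := hy
    refine ⟨M * ε⁻¹, by positivity, ?_⟩
    have := h.cl_add h1 (h.cl_smul h2 (t := M * ε⁻¹) (by positivity))
    have e : M • x - z + (M * ε⁻¹) • (y - ε • x) = (M * ε⁻¹) • y - z := by
      rw [smul_sub, smul_smul, mul_assoc, inv_mul_cancel₀ hε.ne', mul_one]; abel
    rwa [e] at this
  · rintro ⟨hy, hyc, hyu⟩
    obtain ⟨M, hM, h1⟩ := hyu x (Submodule.subset_span (self_mem_face h x))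
    obtain ⟨N, hN, h2, -⟩ := span_le_dom h hx hy
    have hS : 0 < M + N := by linarith
    refine ⟨(M + N)⁻¹, inv_pos.2 hS, ?_, ?_⟩
    · have h3 : (M + N) • x - y ∈ closure C := by
        have := h.cl_add h2 (h.cl_smul hx hM.le)
        have e : N • x - y + M • x = (M + N) • x - y := by rw [add_smul]; abel
        rwa [e] at this
      have := h.cl_smul h3 (inv_pos.2 hS).le
      rwa [smul_sub, smul_smul, inv_mul_cancel₀ hS.ne', one_smul] at this
    · have h3 : (M + N) • y - x ∈ closure C := by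
        have := h.cl_add h1 (h.cl_smul hyc hN.le)
        have e : M • y - x + N • y = (M + N) • y - x := by rw [add_smul]; abel
        rwa [e] at this
      have := h.cl_smul h3 (inv_pos.2 hS).le
      rwa [smul_sub, smul_smul, inv_mul_cancel₀ hS.ne', one_smul] at this

/-- item 4 -/
theorem le_span (h : PCone C) {x : V n} (hx : x ∈ closure C) (L : Submodule ℝ (V n))
    (hL : Unt C L x) : L ≤ Submodule.span ℝ (Face C x) := by
  intro z hz
  obtain ⟨M, hM, h1⟩ := hL.2.2 z hz
  obtain ⟨N, hN, h2⟩ := hL.2.2 (-z) (L.neg_mem hz)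
  rw [sub_neg_eq_add] at h2
  have h3 : (M + N) • x - (N • x + z) ∈ closure C := by
    have e : (M + N) • x - (N • x + z) = M • x - z := by rw [add_smul]; abel
    rw [e]; exact h1
  have h4 := mem_span h hx h2 _ h3
  have h5 := Submodule.sub_mem _ h4 (Submodule.smul_mem _ N
    (Submodule.subset_span (self_mem_face h x) : x ∈ Submodule.span ℝ (Face C x)))
  rwa [add_sub_cancel_left] at h5

/-- **Row FCS.** -/
theorem fcs : FcsStmt := by
  intro n C h x hx
  refine ⟨unt_self h hx, fun y hy M hM => mem_span h hx hy M hM, face_iff h hx,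
    fun L hL => le_span h hx L hL, fun y hy => ?_⟩
  have hyc := hy.2.1
  have hyx : y ∈ Face C x := (face_iff h hx y).2 hy
  have hxy : x ∈ Face C y := by
    obtain ⟨ε, hε, h1, h2⟩ := hyx
    exact ⟨ε, hε, h2, h1⟩
  refine le_antisymm ?_ (le_span h hyc _ hy)
  exact le_span h hx _ ((face_iff h hyc x).1 hxy)

end Pool.Agent.NTW.H27
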