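import Pool.Agent.NTW.StmtsA

/-!
# NTW squad, row ZFF: zoom at an edge
-/

set_option autoImplicit false

open Matrix Filter Topology

namespace Pool.Agent.NTW.H27

open Pool.Agent.PFS Pool.Agent.PFJ Pool.Agent.NTW

variable {n : ℕ} {C : Set (V n)}

/-- a unit absorbs a bounded sequence of `F` which is asymptotically in the closed cone -/
theorem unit_absorb (uop : UopStmt) (h : PCone C) {F : Submodule ℝ (V n)} {f : V n}
    (hf : Unt C F f) (R D : V n) (z : ℕ → V n) (η : ℕ → ℝ) (hz : ∀ m, z m ∈ F)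
    (hη : Tendsto η atTop (𝓝 0))
    (hb : ∀ᶠ m in atTop, z m + η m • R ∈ closure C ∧ D - (z m + η m • R) ∈ closure C) :
    ∀ᶠ m in atTop, f + z m ∈ closure C := by
  by_contra hne
  have hfr : ∃ᶠ m in atTop, ¬ (f + z m ∈ closure C) := Filter.not_eventually.1 hne
  obtain ⟨ψ, hψ, hψm⟩ := extraction_of_frequently_atTop (hfr.and_eventually hb)
  obtain ⟨B, hB, hBn⟩ := h.normal
  have hbd : ∀ m, z (ψ m) + η (ψ m) • R ∈ Metric.closedBall (0 : V n) (B * ‖D‖) := by
    intro m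
    rw [mem_closedBall_zero_iff]
    exact hBn _ _ (hψm m).2.1 (hψm m).2.2
  obtain ⟨a, -, θ, hθ, hlim⟩ := tendsto_subseq_of_bounded
    (Metric.isBounded_closedBall (x := (0 : V n)) (r := B * ‖D‖)) hbd
  have hη' : Tendsto (fun m => η (ψ (θ m)) • R) atTop (𝓝 ((0 : ℝ) • R)) :=
    ((hη.comp hψ.tendsto_atTop).comp hθ.tendsto_atTop).smul_const R
  have hz' : Tendsto (fun m => z (ψ (θ m))) atTop (𝓝 a) := by
    have h1 := hlim.sub hη'
    rw [zero_smul, sub_zero] at h1
    refine h1.congr fun m => ?_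
    show z (ψ (θ m)) + η (ψ (θ m)) • R - η (ψ (θ m)) • R = z (ψ (θ m))
    rw [add_sub_cancel_right]
  have haF : a ∈ F := (Submodule.closed_of_finiteDimensional F).mem_of_tendsto hz'
    (Eventually.of_forall fun m => hz _)
  have hac : a ∈ closure C := isClosed_closure.mem_of_tendsto hlim
    (Eventually.of_forall fun m => (hψm (θ m)).2.1)
  have hu : Unt C F (f + a) := (Pool.Agent.PFJ.H76.unf n C h F f hf).2.2.1 a haF hac
  have hd : Tendsto (fun m => z (ψ (θ m)) - a) atTop (𝓝 0) := by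
    have h1 := hz'.sub_const a
    rwa [sub_self] at h1
  obtain ⟨m, hm⟩ := (uop n C h F (f + a) hu (fun m => z (ψ (θ m)) - a)
    (fun m => F.sub_mem (hz _) haF) hd).exists
  have e : f + a + (z (ψ (θ m)) - a) = f + z (ψ (θ m)) := by abel
  rw [e] at hm
  exact (hψm (θ m)).1 hm

theorem sum_split {K : ℕ} (w : Fin K → V n) {i j : Fin K} (hij : i ≠ j) :
    ∑ l, w l = (w i + w j) + rst w i j := by
  have hmem : j ∈ Finset.univ.erase i := Finset.mem_erase.2 ⟨hij.symm, Finset.mem_univ _⟩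
  rw [rst, ← Finset.add_sum_erase _ _ (Finset.mem_univ i), ← Finset.add_sum_erase _ _ hmem]
  abel

theorem rst_act {K : ℕ} (w : Fin K → V n) (r : Fin K → ℝ) {i j : Fin K}
    (hr : ∀ l, l ≠ i → l ≠ j → r l = 1) (s : ℝ) (g : GL (Fin n) ℝ) :
    rst (fun l => s • act g (r l • w l)) i j = s • act g (rst w i j) := by
  rw [rst, rst, CC.act_sum, Finset.smul_sum]
  refine Finset.sum_congr rfl fun l hl => ?_
  have hl1 := Finset.mem_erase.1 hl
  have hl2 := Finset.mem_erase.1 hl1.2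
  rw [hr l hl2.1 hl1.1, one_smul]

/-- the main step: the limit of the open face is a pair box -/
theorem core (fcs : FcsStmt) (uop : UopStmt) {Γ : Subgroup (GL (Fin n) ℝ)} (h : CC C Γ) {K : ℕ}
    {w w' : Fin K → V n} (hw : PES C w) (hw' : PES C w') {i j : Fin K} (hij : i ≠ j)
    (g : ℕ → GL (Fin n) ℝ) (s N : ℕ → ℝ) (r : ℕ → Fin K → ℝ) (hg : ∀ m, g m ∈ Γ)
    (hs : ∀ m, 0 < s m) (hN1 : ∀ m, 1 ≤ N m) (hN : Tendsto N atTop atTop)
    (hri : ∀ m, r m i = N m) (hrj : ∀ m, r m j = N m)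
    (hr1 : ∀ m l, l ≠ i → l ≠ j → r m l = 1)
    (hx : ∀ l, Tendsto (fun m => s m • act (g m) (r m l • w l)) atTop (𝓝 (w' l)))
    {L : Submodule ℝ (V n)} (hL : LimS (fun m => img (g m) (Fs C (w i) (w j))) L) :
    PB C w' i j L := by
  have hP : PCone C := h.toPCone
  have hwc : ∀ l, w l ∈ closure C := fun l => PES.cl hw l
  have hfc : w i + w j ∈ closure C := hP.cl_add (hwc i) (hwc j)
  obtain ⟨fc1, fc2, -, -, -⟩ := fcs n C hP (w i + w j) hfc
  have hwi : w i ∈ Fs C (w i) (w j) := fc2 _ (hwc i) 1 (by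
    rw [one_smul, add_sub_cancel_left]; exact hwc j)
  have hwj : w j ∈ Fs C (w i) (w j) := fc2 _ (hwc j) 1 (by
    rw [one_smul, add_sub_cancel_right]; exact hwc i)
  have hmem : ∀ m, ∀ y ∈ Fs C (w i) (w j), ∀ c : ℝ, c • act (g m) y ∈ img (g m) (Fs C (w i) (w j)) :=
    fun m y hy c => Submodule.smul_mem _ _ (mem_img.2 ⟨y, hy, rfl⟩)
  refine ⟨?_, ?_, ?_⟩
  · exact hL.2 id _ (w' i) strictMono_id (fun m => hmem m _ (Submodule.smul_mem _ _ hwi) _) (hx i)
  · exact hL.2 id _ (w' j) strictMono_id (fun m => hmem m _ (Submodule.smul_mem _ _ hwj) _) (hx j)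
  intro v hv hvr
  obtain ⟨y, hy, hyv⟩ := hL.1 v hv
  have hvm : ∀ m, ∃ u ∈ Fs C (w i) (w j), s m • act (g m) u = y m := by
    intro m
    obtain ⟨u0, hu0, hu1⟩ := mem_img.1 (hy m)
    refine ⟨(s m)⁻¹ • u0, Submodule.smul_mem _ _ hu0, ?_⟩
    rw [CC.act_smul, smul_smul, mul_inv_cancel₀ (hs m).ne', one_smul, hu1]
  choose vv hvF hvy using hvm
  -- notation
  obtain ⟨F, hF⟩ : ∃ F, F = Fs C (w i) (w j) := ⟨_, rfl⟩
  obtain ⟨f, hf⟩ : ∃ f, f = w i + w j := ⟨_, rfl⟩
  obtain ⟨R, hR⟩ : ∃ R, R = rst w i j := ⟨_, rfl⟩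
  have hxs : ∀ m, ∑ l, s m • act (g m) (r m l • w l) = s m • act (g m) (N m • f + R) := by
    intro m
    rw [sum_split (fun l => s m • act (g m) (r m l • w l)) hij, rst_act w (r m) (hr1 m) (s m) (g m)]
    simp only [hri, hrj]
    rw [hf, hR, smul_add (N m), CC.act_add, CC.act_add, smul_add, smul_add]
  have hrs : ∀ m, rst (fun l => s m • act (g m) (r m l • w l)) i j = s m • act (g m) R := by
    intro m
    rw [rst_act w (r m) (hr1 m) (s m) (g m), hR]
  have hsum : Tendsto (fun m => s m • act (g m) (N m • f + R)) atTop (𝓝 (∑ l, w' l)) := by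
    have h1 : Tendsto (fun m => ∑ l, s m • act (g m) (r m l • w l)) atTop (𝓝 (∑ l, w' l)) :=
      tendsto_finsetSum _ fun l _ => hx l
    refine h1.congr fun m => hxs m
  have hrst : Tendsto (fun m => s m • act (g m) R) atTop (𝓝 (rst w' i j)) := by
    have h1 : Tendsto (fun m => rst (fun l => s m • act (g m) (r m l • w l)) i j) atTop
        (𝓝 (rst w' i j)) := tendsto_finsetSum _ fun l _ => hx l
    exact h1.congr fun m => hrs m
  have hpair : Tendsto (fun m => s m • act (g m) (N m • f)) atTop (𝓝 (w' i + w' j)) := by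
    have h1 := (hx i).add (hx j)
    refine h1.congr fun m => ?_
    rw [hri, hrj, hf, smul_add (N m), CC.act_add, smul_add]
  have hS : ∑ l, w' l ∈ C := by
    have := hw'.pos (fun _ => 1) (fun _ => one_pos)
    simpa using this
  -- the claim for fixed `ε`
  have key : ∀ ε : ℝ, 0 < ε → v + (2 * ε) • (w' i + w' j) ∈ closure C := by
    intro ε hε
    have t1 : Tendsto (fun m => s m • act (g m) (vv m + R + ε • (N m • f + R))) atTop
        (𝓝 (v + rst w' i j + ε • ∑ l, w' l)) := by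
      have h1 := (hyv.add hrst).add (hsum.const_smul ε)
      refine h1.congr fun m => ?_
      rw [← hvy m, CC.act_add (g m) (vv m + R), CC.act_add (g m) (vv m) R, CC.act_smul (g m) ε]
      module
    have t1C : v + rst w' i j + ε • ∑ l, w' l ∈ C := hP.cl_add' hvr (hP.smul _ hS ε hε)
    have e1 : ∀ᶠ m in atTop, vv m + R + ε • (N m • f + R) ∈ closure C := by
      filter_upwards [t1.eventually (hP.isOpen.mem_nhds t1C)] with m hm
      exact subset_closure ((h.sact_mem_iff (hg m) (hs m)).1 hm)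
    obtain ⟨M, hM, hMC⟩ := hP.absorb hS v
    have t2 : Tendsto (fun m => s m • act (g m) (M • (N m • f + R) - vv m)) atTop
        (𝓝 (M • (∑ l, w' l) - v)) := by
      have h1 := (hsum.const_smul M).sub hyv
      refine h1.congr fun m => ?_
      rw [← hvy m, CC.act_sub, CC.act_smul (g m) M]
      module
    have e2 : ∀ᶠ m in atTop, M • (N m • f + R) - vv m ∈ closure C := by
      filter_upwards [t2.eventually (hP.isOpen.mem_nhds hMC)] with m hm
      exact subset_closure ((h.sact_mem_iff (hg m) (hs m)).1 hm)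
    have hfc' : f ∈ closure C := by rw [hf]; exact hfc
    have hRc : R ∈ closure C := by rw [hR]; exact hP.cl_sum fun l _ => hwc l
    have hη : Tendsto (fun m => (1 + ε) * (ε * N m)⁻¹) atTop (𝓝 0) := by
      have h1 : Tendsto (fun m => (ε * N m)⁻¹) atTop (𝓝 0) :=
        tendsto_inv_atTop_zero.comp (hN.const_mul_atTop hε)
      have h2 := h1.const_mul (1 + ε)
      rwa [mul_zero] at h2
    have e3 := unit_absorb uop hP (F := F) (f := f) (by rw [hF, hf]; exact fc1) R
      ((M / ε + 1) • f + ((M + 1 + ε) / ε) • R) (fun m => (ε * N m)⁻¹ • vv m + f)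
      (fun m => (1 + ε) * (ε * N m)⁻¹) (fun m => by
        rw [hF]
        refine Submodule.add_mem _ (Submodule.smul_mem _ _ (hvF m)) ?_
        rw [hf]; exact Submodule.add_mem _ hwi hwj) hη (by
        filter_upwards [e1, e2] with m h1 h2
        have hNp : 0 < N m := lt_of_lt_of_le one_pos (hN1 m)
        have hεN : 0 < ε * N m := mul_pos hε hNp
        constructor
        · have h3 := hP.cl_smul h1 (inv_pos.2 hεN).le
          have e : (ε * N m)⁻¹ • (vv m + R + ε • (N m • f + R)) =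
              (ε * N m)⁻¹ • vv m + f + ((1 + ε) * (ε * N m)⁻¹) • R := by
            have e4 : (ε * N m)⁻¹ * (ε * N m) = 1 := inv_mul_cancel₀ hεN.ne'
            have e5 : (ε * N m)⁻¹ • (vv m + R + ε • (N m • f + R)) =
                (ε * N m)⁻¹ • vv m + ((ε * N m)⁻¹ * (ε * N m)) • f +
                  ((1 + ε) * (ε * N m)⁻¹) • R := by module
            rw [e5, e4, one_smul]
          rwa [e] at h3
        · have h3 := hP.cl_smul h2 (inv_pos.2 hεN).le
          have hle : (M + 1 + ε) * (ε * N m)⁻¹ ≤ (M + 1 + ε) / ε := by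
            rw [div_eq_mul_inv]
            refine mul_le_mul_of_nonneg_left ?_ (by linarith)
            rw [mul_inv]
            have : (N m)⁻¹ ≤ 1 := inv_le_one_of_one_le₀ (hN1 m)
            calc ε⁻¹ * (N m)⁻¹ ≤ ε⁻¹ * 1 := mul_le_mul_of_nonneg_left this (inv_pos.2 hε).le
              _ = ε⁻¹ := mul_one _
          have h4 := hP.cl_add h3 (hP.cl_smul hRc (t := (M + 1 + ε) / ε -
            (M + 1 + ε) * (ε * N m)⁻¹) (by linarith))
          have e : (ε * N m)⁻¹ • (M • (N m • f + R) - vv m) +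
              ((M + 1 + ε) / ε - (M + 1 + ε) * (ε * N m)⁻¹) • R =
              (M / ε + 1) • f + ((M + 1 + ε) / ε) • R -
                ((ε * N m)⁻¹ • vv m + f + ((1 + ε) * (ε * N m)⁻¹) • R) := by
            have e4 : (ε * N m)⁻¹ * (M * N m) = M / ε := by
              field_simp
            have e5 : (ε * N m)⁻¹ • (M • (N m • f + R) - vv m) +
                ((M + 1 + ε) / ε - (M + 1 + ε) * (ε * N m)⁻¹) • R =
                ((ε * N m)⁻¹ * (M * N m)) • f + ((M + 1 + ε) / ε) • R -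
                  ((ε * N m)⁻¹ • vv m + ((1 + ε) * (ε * N m)⁻¹) • R) := by module
            rw [e5, e4]
            module
          rwa [e] at h4)
    have t3 : Tendsto (fun m => s m • act (g m) (vv m + (2 * ε * N m) • f)) atTop
        (𝓝 (v + (2 * ε) • (w' i + w' j))) := by
      have h1 := hyv.add (hpair.const_smul (2 * ε))
      refine h1.congr fun m => ?_
      rw [← hvy m, CC.act_add, mul_smul (2 * ε) (N m) f, CC.act_smul (g m) (2 * ε)]
      module
    refine isClosed_closure.mem_of_tendsto t3 ?_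
    filter_upwards [e3] with m hm
    rw [h.sact_cl_iff (hg m) (hs m)]
    have hNp : 0 < N m := lt_of_lt_of_le one_pos (hN1 m)
    have hεN : 0 < ε * N m := mul_pos hε hNp
    have h3 := hP.cl_smul hm hεN.le
    have e : (ε * N m) • (f + ((ε * N m)⁻¹ • vv m + f)) = vv m + (2 * ε * N m) • f := by
      have e4 : (ε * N m) * (ε * N m)⁻¹ = 1 := mul_inv_cancel₀ hεN.ne'
      have e5 : (ε * N m) • (f + ((ε * N m)⁻¹ • vv m + f)) =
          ((ε * N m) * (ε * N m)⁻¹) • vv m + (2 * ε * N m) • f := by module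
      rw [e5, e4, one_smul]
    rwa [e] at h3
  -- `ε → 0`
  have hlim : Tendsto (fun k : ℕ => v + (2 * (1 / ((k : ℝ) + 1))) • (w' i + w' j)) atTop
      (𝓝 (v + (2 * (0 : ℝ)) • (w' i + w' j))) :=
    tendsto_const_nhds.add ((tendsto_one_div_add_atTop_nhds_zero_nat.const_mul 2).smul_const _)
  rw [mul_zero, zero_smul, add_zero] at hlim
  exact isClosed_closure.mem_of_tendsto hlim
    (Eventually.of_forall fun k => key _ (by positivity))

/-- **Row ZFF.** -/
theorem zff (fcs : FcsStmt) (uop : UopStmt) (pbf : PbfStmt) (pac : PacStmt) (pbl : PblStmt) :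
    ZffStmt := by
  classical
  intro n C Γ h K w hw i j hij
  have hP : PCone C := h.toPCone
  have elm := Pool.Agent.PFS.H60.elm n C Γ h (Fin K)
  have hcard : 2 ≤ Fintype.card (Fin K) := by
    rw [Fintype.card_fin]
    have h1 := i.2
    have h2 := j.2
    have h3 : i.val ≠ j.val := fun h0 => hij (Fin.ext h0)
    omega
  obtain ⟨r, hr⟩ : ∃ r : ℕ → Fin K → ℝ, r = fun (m : ℕ) l => if l = i ∨ l = j then (m : ℝ) + 1 else 1 :=
    ⟨_, rfl⟩
  have hrp : ∀ m l, 0 < r m l := by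
    intro m l
    rw [hr]
    show 0 < if l = i ∨ l = j then (m : ℝ) + 1 else 1
    split_ifs <;> positivity
  have hri : ∀ m, r m i = (m : ℝ) + 1 := fun m => by rw [hr]; simp
  have hrj : ∀ m, r m j = (m : ℝ) + 1 := fun m => by rw [hr]; simp
  have hr1 : ∀ m l, l ≠ i → l ≠ j → r m l = 1 := fun m l h1 h2 => by rw [hr]; simp [h1, h2]
  have hpC : ∀ m : ℕ, ∑ l, r m l • w l ∈ C := fun m => hw.1.pos _ (hrp m)
  have hpH : ∀ m : ℕ, ∑ l, r m l • w l ∈ Hull C Γ := fun m => (elm w hw).2.2.2.1 _ (hrp m)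
  obtain ⟨φ, g, s, p, hφ, hg, hs, hp, hlim⟩ := Pool.Agent.PFS.H60.zom n C Γ h _ hpC hpH
  have hxP : ∀ m, IsPES C Γ (fun l => s m • act (g m) (r (φ m) l • w l)) := by
    intro m
    have b1 := (elm w hw).1 (r (φ m)) (hrp (φ m))
    exact (elm _ b1).2.1 (g m) (hg m) (s m) (hs m)
  have hxs : Tendsto (fun m => ∑ l, s m • act (g m) (r (φ m) l • w l)) atTop (𝓝 p) := by
    refine hlim.congr fun m => ?_
    rw [CC.act_sum, Finset.smul_sum]
  obtain ⟨φ₁, w', hφ₁, hxW, -, hW⟩ :=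
    Pool.Agent.PFS.H37.lpsF n C Γ h (Fin K) hcard
      (fun m l => s m • act (g m) (r (φ m) l • w l)) p hxP hp hxs
  refine ⟨w', hW, ?_, ?_⟩
  · obtain ⟨φ₂, L, hφ₂, hL, hfin⟩ :=
      Pool.Agent.PFJ.H69.lsc n (fun m => img (g (φ₁ m)) (Fs C (w i) (w j)))
    refine ⟨L, ?_, ?_⟩
    · refine core fcs uop h hw.1 hW.1 hij (fun m => g (φ₁ (φ₂ m))) (fun m => s (φ₁ (φ₂ m)))
        (fun m => (φ (φ₁ (φ₂ m)) : ℝ) + 1) (fun m => r (φ (φ₁ (φ₂ m)))) (fun m => hg _)
        (fun m => hs _) (fun m => ?_) ?_ (fun m => hri _) (fun m => hrj _)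
        (fun m l h1 h2 => hr1 _ l h1 h2) (fun l => (hxW l).comp hφ₂.tendsto_atTop) hL
      · have : (0 : ℝ) ≤ (φ (φ₁ (φ₂ m)) : ℝ) := Nat.cast_nonneg _
        linarith
      · refine tendsto_atTop_add_const_right _ _ ?_
        exact tendsto_natCast_atTop_atTop.comp
          (hφ.tendsto_atTop.comp (hφ₁.tendsto_atTop.comp hφ₂.tendsto_atTop))
    · rw [← hfin 0, (Pool.Agent.PFJ.H32.img n).1]
  · intro k l hkl L₀ hL₀
    obtain ⟨φ₂, L, hφ₂, hL, hfin⟩ :=
      Pool.Agent.PFJ.H69.lsc n (fun m => img (g (φ₁ m)) L₀)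
    refine ⟨L, ?_, ?_⟩
    · refine pbl n C hP K (fun m l => s (φ₁ (φ₂ m)) • act (g (φ₁ (φ₂ m)))
        (r (φ (φ₁ (φ₂ m))) l • w l)) w' k l (fun m => img (g (φ₁ (φ₂ m))) L₀) L hkl
        (fun m => (hxP _).1) hW.1 (fun l => (hxW l).comp hφ₂.tendsto_atTop) (fun m => ?_) hL
      have b1 := ((pbf n C hP K w hw.1 k l hkl).1 L₀ hL₀).2.2.2.2.1 (r (φ (φ₁ (φ₂ m)))) (hrp _)
      exact (pac n C Γ h (g (φ₁ (φ₂ m))) (hg _) (s (φ₁ (φ₂ m))) (hs _)).2.1 K _ k l L₀ b1
    · rw [← hfin 0, (Pool.Agent.PFJ.H32.img n).1]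

end Pool.Agent.NTW.H27
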