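import Pool.Agent.NTW.StmtsD

/-!
# NTW squad, row LBW: labels, no drift
-/

set_option autoImplicit false

open Matrix Filter Topology

namespace Pool.Agent.NTW.H27

open Pool.Agent.PFS Pool.Agent.PFJ Pool.Agent.NTW

/-- **Row LBW.** -/
theorem lbw (dcp : DcpStmt) : LbwStmt := by
  classical
  intro n C Γ K c τ h w w' hw hw' hTN t M x hN
  have hP : PCone C := h.toPCone
  have hCC : CC C Γ := h.toCC
  obtain ⟨d1, d2, -, d4, -, -, -⟩ := dcp n C Γ K c τ h w' hw'
  have hwc : ∀ i, w i ∈ closure C := fun i => PES.cl hw.pes.1 i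
  have hwc' : ∀ i, w' i ∈ closure C := fun i => PES.cl hw'.pes.1 i
  have hul := hCC.hul
  have hne' : ∀ i, w' i ≠ 0 := fun i => hul.lamNe _ (hw'.pes.2 i)
  have hxt : xt w t ∈ closure C := hP.cl_sum fun i _ => hP.cl_smul (hwc i) (Real.exp_pos _).le
  have hxc : ∑ i, x i ∈ closure C := by
    have := hP.cl_add hN.lo hxt
    rwa [sub_add_cancel] at this
  -- the single lower bound
  have key1 : ∀ i, ∑ l, x l + ((1/8 : ℝ) * Real.exp (t i)) • ∑ l, w' l - Real.exp (t i) • w' i ∈
      closure C := by
    intro i
    have h1 : xt w t - Real.exp (t i) • w i ∈ closure C := by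
      have e : xt w t - Real.exp (t i) • w i =
          ∑ l ∈ Finset.univ.erase i, Real.exp (t l) • w l := by
        rw [xt, ← Finset.add_sum_erase _ _ (Finset.mem_univ i)]; abel
      rw [e]
      exact hP.cl_sum fun l _ => hP.cl_smul (hwc l) (Real.exp_pos _).le
    have h2 := hP.cl_smul (hTN i).2.2.2 (Real.exp_pos (t i)).le
    have h3 := hP.cl_add (hP.cl_add hN.lo h1) h2
    have e : (∑ l, x l) - xt w t + (xt w t - Real.exp (t i) • w i) +
        Real.exp (t i) • ((1/8 : ℝ) • (∑ m, w' m) + (w i - w' i)) =
        ∑ l, x l + ((1/8 : ℝ) * Real.exp (t i)) • ∑ l, w' l - Real.exp (t i) • w' i := by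
      rw [smul_add, smul_smul, smul_sub, mul_comm (Real.exp (t i)) (1/8 : ℝ)]; abel
    rwa [e] at h3
  refine ⟨fun i hi => ?_, fun i hi hti => ?_⟩
  · -- single vertices
    have hLi : Lf C τ w' i = Submodule.span ℝ {w' i} := by rw [Lf, if_pos hi]
    obtain ⟨b, hb⟩ : ∃ b : ℝ, b • w' i = x i := by
      have := hN.mem i
      rw [hLi] at this
      exact Submodule.mem_span_singleton.1 this
    have hE := Real.exp_pos (t i)
    have hb1 : 7/8 * Real.exp (t i) ≤ b := by
      have h4 := d4 (fun l => x l + ((1/8 : ℝ) * Real.exp (t i)) • w' l -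
          (if l = i then Real.exp (t i) • w' i else 0)) (fun l => by
            refine Submodule.sub_mem _ (Submodule.add_mem _ (hN.mem l)
              (Submodule.smul_mem _ _ (d1 l))) ?_
            split_ifs with hl
            · rw [hl]; exact Submodule.smul_mem _ _ (d1 i)
            · exact Submodule.zero_mem _) (by
            rw [Finset.sum_sub_distrib, Finset.sum_add_distrib, ← Finset.smul_sum,
              Finset.sum_ite_eq' Finset.univ i (fun _ => Real.exp (t i) • w' i)]
            simp only [Finset.mem_univ, if_true]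
            exact key1 i) i
      simp only [hi, if_true] at h4
      rw [← hb] at h4
      have e : b • w' i + ((1/8 : ℝ) * Real.exp (t i)) • w' i - Real.exp (t i) • w' i +
          (b • w' i + ((1/8 : ℝ) * Real.exp (t i)) • w' i - Real.exp (t i) • w' i) =
          (2 * (b - 7/8 * Real.exp (t i))) • w' i := by
        module
      rw [e] at h4
      by_contra hlt
      push Not at hlt
      have hc : 0 < -(2 * (b - 7/8 * Real.exp (t i))) := by linarith
      have h5 := hP.cl_smul h4 (t := (-(2 * (b - 7/8 * Real.exp (t i))))⁻¹)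
        (inv_pos.2 hc).le
      have e2 : (-(2 * (b - 7/8 * Real.exp (t i))))⁻¹ • (2 * (b - 7/8 * Real.exp (t i))) • w' i =
          -(w' i) := by
        rw [smul_smul]
        have : (-(2 * (b - 7/8 * Real.exp (t i))))⁻¹ * (2 * (b - 7/8 * Real.exp (t i))) = -1 := by
          have hne : (2 * (b - 7/8 * Real.exp (t i))) ≠ 0 := by
            intro h0; rw [h0] at hc; simp at hc
          rw [inv_neg, neg_mul, inv_mul_cancel₀ hne]
        rw [this, neg_one_smul]
      rw [e2] at h5
      exact hne' i (hP.salient _ (hwc' i) h5)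
    refine ⟨b, hb.symm, by linarith, ?_⟩
    -- upper bound
    obtain ⟨φ, -, hφ0, hφm, hφi⟩ := Pool.Agent.PFS.H60.fun_ n C hP (Fin K) w i hw.pes.1
    have hsum : φ (∑ m, w m) = φ (w i) := by
      rw [map_sum]
      exact Finset.sum_eq_single i (fun m _ hm => hφm m hm) (fun h0 => absurd (Finset.mem_univ i) h0)
    have hxtφ : φ (xt w t) = Real.exp (t i) * φ (w i) := by
      rw [xt, map_sum]
      rw [Finset.sum_eq_single i (fun m _ hm => by rw [map_smul, hφm m hm, smul_zero])
        (fun h0 => absurd (Finset.mem_univ i) h0), map_smul, smul_eq_mul]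
    have hw'φ : 7/8 * φ (w i) ≤ φ (w' i) := by
      have := hφ0 _ (hTN i).1
      rw [map_sub, map_smul, map_sub, hsum, smul_eq_mul] at this
      linarith
    have hup : φ (∑ l, x l) ≤ M * (Real.exp (t i) * φ (w i)) := by
      have := hφ0 _ hN.up
      rw [map_sub, map_smul, hxtφ, smul_eq_mul] at this
      linarith
    have hrest : ∑ l, x l - x i ∈ closure C := by
      have hpair := d4 x hN.mem hxc
      have h6 : ∑ l ∈ Finset.univ.erase i, (x l + x (τ l)) ∈ closure C :=
        hP.cl_sum fun l _ => hpair l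
      have hperm : ∑ l, x (τ l) = ∑ l, x l :=
        Equiv.sum_comp (Function.Involutive.toPerm τ h.inv) x
      have e : ∑ l ∈ Finset.univ.erase i, (x l + x (τ l)) =
          (∑ l, x l + ∑ l, x (τ l)) - (x i + x (τ i)) := by
        rw [← Finset.sum_add_distrib, ← Finset.add_sum_erase _ _ (Finset.mem_univ i)]; abel
      rw [e, hperm, hi] at h6
      have h7 := hP.cl_smul h6 (t := 1/2) (by norm_num)
      have e2 : (1/2 : ℝ) • (∑ l, x l + ∑ l, x l - (x i + x i)) = ∑ l, x l - x i := by module
      rwa [e2] at h7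
    have hge : b * φ (w' i) ≤ φ (∑ l, x l) := by
      have := hφ0 _ hrest
      rw [map_sub, ← hb, map_smul, smul_eq_mul] at this
      linarith
    have hbpos : 0 < b := by linarith
    have h8 : b * (7/8 * φ (w i)) ≤ M * (Real.exp (t i) * φ (w i)) :=
      (mul_le_mul_of_nonneg_left hw'φ hbpos.le).trans (hge.trans hup)
    have h9 : b * (7/8) ≤ M * Real.exp (t i) := by
      by_contra hlt
      push Not at hlt
      have := mul_lt_mul_of_pos_right hlt hφi
      linarith
    linarith
  · -- pairs
    have hE := Real.exp_pos (t i)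
    have hmem : τ i ∈ Finset.univ.erase i := Finset.mem_erase.2 ⟨hi, Finset.mem_univ _⟩
    have h1 : xt w t - Real.exp (t i) • (w i + w (τ i)) ∈ closure C := by
      have e : xt w t - Real.exp (t i) • (w i + w (τ i)) =
          ∑ l ∈ (Finset.univ.erase i).erase (τ i), Real.exp (t l) • w l := by
        rw [xt, ← Finset.add_sum_erase _ _ (Finset.mem_univ i), ← Finset.add_sum_erase _ _ hmem,
          hti, smul_add]
        abel
      rw [e]
      exact hP.cl_sum fun l _ => hP.cl_smul (hwc l) (Real.exp_pos _).le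
    have h2 := hP.cl_smul (hP.cl_add (hTN i).2.2.2 (hTN (τ i)).2.2.2) hE.le
    have h3 := hP.cl_add (hP.cl_add hN.lo h1) h2
    have e : (∑ l, x l) - xt w t + (xt w t - Real.exp (t i) • (w i + w (τ i))) +
        Real.exp (t i) • ((1/8 : ℝ) • (∑ m, w' m) + (w i - w' i) +
          ((1/8 : ℝ) • (∑ m, w' m) + (w (τ i) - w' (τ i)))) =
        ∑ l, x l + ((1/4 : ℝ) * Real.exp (t i)) • ∑ l, w' l -
          Real.exp (t i) • (w' i + w' (τ i)) := by
      module
    rw [e] at h3
    have h4 := d4 (fun l => x l + ((1/4 : ℝ) * Real.exp (t i)) • w' l -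
        ((if l = i then Real.exp (t i) • w' i else 0) +
          (if l = τ i then Real.exp (t i) • w' (τ i) else 0))) (fun l => by
          refine Submodule.sub_mem _ (Submodule.add_mem _ (hN.mem l)
            (Submodule.smul_mem _ _ (d1 l))) (Submodule.add_mem _ ?_ ?_)
          · split_ifs with hl
            · rw [hl]; exact Submodule.smul_mem _ _ (d1 i)
            · exact Submodule.zero_mem _
          · split_ifs with hl
            · rw [hl]; exact Submodule.smul_mem _ _ (d1 (τ i))
            · exact Submodule.zero_mem _) (by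
          rw [Finset.sum_sub_distrib, Finset.sum_add_distrib, Finset.sum_add_distrib,
            ← Finset.smul_sum,
            Finset.sum_ite_eq' Finset.univ i (fun _ => Real.exp (t i) • w' i),
            Finset.sum_ite_eq' Finset.univ (τ i) (fun _ => Real.exp (t i) • w' (τ i))]
          simp only [Finset.mem_univ, if_true]
          rw [← smul_add]
          exact h3) i
    have hne1 : ¬ (i = τ i) := fun h0 => hi h0.symm
    simp only [if_true, hne1, hi, if_false, add_zero, zero_add] at h4
    have h5 := hP.cl_add (hP.cl_smul h4 (t := 2) (by norm_num))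
      (hP.cl_smul (hP.cl_add (hwc' i) (hwc' (τ i))) (t := 1/2 * Real.exp (t i)) (by positivity))
    have e3 : (2 : ℝ) • (x i + ((1/4 : ℝ) * Real.exp (t i)) • w' i - Real.exp (t i) • w' i +
        (x (τ i) + ((1/4 : ℝ) * Real.exp (t i)) • w' (τ i) - Real.exp (t i) • w' (τ i))) +
        (1/2 * Real.exp (t i)) • (w' i + w' (τ i)) =
        (2 : ℝ) • (x i + x (τ i)) - Real.exp (t i) • (w' i + w' (τ i)) := by
      module
    rwa [e3] at h5

end Pool.Agent.NTW.H27
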